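import Pool.Agent.Run7.h587.Ad.Nf

/-!
# Rational points on K3 surfaces with a quotient structure at the place two

`S : y² = ∏_{i ∈ T} (4 v_i + 1) · g(v₁, …, v_n)`, where `T` is a set of indices and `g` has degree at
most `2` in `v_i` for `i ∈ T` and at most `4` in the other variables. For `n = 2` and general `g` these
are affine open subsets of (nodal models of) K3 surfaces, double covers of `ℙ¹ × ℙ¹` with a reducible
branch curve: for `T = {1}` the surfaces `y² = (4 v₁ + 1) g(v₁, v₂)`, with `10` moduli, and for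
`T = {1, 2}` the surfaces `y² = (4 v₁ + 1) (4 v₂ + 1) g(v₁, v₂)`, with `6` moduli. They are the quotients
of the surfaces `X : w² = g(φ(z))`, where `φ(z)_i = z_i² + z_i` for `i ∈ T` and `φ(z)_i = z_i` for the other
`i`, by the symplectic involutions `(z_i, w) ↦ (-1 - z_i, -w)`, `i ∈ T`; here `v = φ(z)` and
`y = w ∏_{i ∈ T} (2 z_i + 1)`.

The polynomial of `X` is called strongly adapted at `2` if its coefficients are `2`-integral, and if for
all the points `(z, w)` of `X` over `ℚ₂` the coordinates `z_i` are `2`-adic integers, `w` and the partial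
derivatives are units, and the curves of genus one in the directions of the coordinates through the point
are smooth.

Let `K` be a field of characteristic zero with an embedding `σ` in `ℚ₂`, for example `ℚ`, or a number
field with a place of degree one above `2`, and let the pullback `g ∘ φ` be strongly adapted at `2`. Let
`U` be the open set of the points of `S` over `ℚ₂` for which the `v_i`, `i ∈ T`, are even `2`-adic
integers.

(1) The closure of `S(K) ∩ U` is the set of all the points of `U` with `v` congruent modulo `8` to `v(P)`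
for some `P` in `S(K) ∩ U`. Near each point of `S(K) ∩ U` the points of `S(K)` are Zariski dense in `S`.

(2) This applies to all the integral polynomials `g` congruent modulo `4` to
`3 ∏_{i ∈ T} (v_i + 1)² ∏_{i ∉ T} (v_i² + v_i + 1)² + ∑_{i ∈ T} v_i + ∑_{i ∉ T} (v_i² + v_i) + 2`.

(3) Let `n = 2`, and let `T` be `{1}` or `{1, 2}` (in the notation below `{0}` or `{0, 1}`). For each
member of the class in (2), and each `M` there is a member congruent to it modulo `2^M` for which
`S(ℚ) ∩ U` is not empty and dense in `U`.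

(4) The coefficients of these members are Zariski dense in the space of all the `15` (or `9`)
coefficients.

Idea of the proof. Let `P = (v, y)` be a `K`-point of `S` in `U`. The numbers `4 v_i + 1`, `i ∈ T`, are the
squares of `2`-adic units `δ_i`. In the coordinates `x_i` with `z_i = δ_i x_i + (δ_i - 1) / 2` the twist of
`X` by the classes of the `4 v_i + 1` is defined over `K` by a polynomial which is again strongly adapted,
and it has a `K`-point over `P`. So one can use the theorem of `ResiduesModEight` (for `MP_ed3816_nt`):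
on a strongly adapted variety, one can move a `K`-point to points over `K` near all the `ℚ₂`-points which
are congruent to it modulo `8`. The points of `S(K) ∩ U` are in general not the images of `K`-points
of `X`.
-/

set_option autoImplicit false

namespace Pool.Agent.Results.MP_ff4683_nt.QuotientSurfacesAtTwo

open MvPolynomial Pool.Agent.Run7.h587.Ad

/-- The polynomial `q(t) = F(z + t e_i)`. -/
noncomputable def line {K : Type} [Field K] {n : ℕ} (F : MvPolynomial (Fin n) K) (z : Fin n → K)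
    (i : Fin n) : Polynomial K :=
  aeval (fun k => Polynomial.C (z k) + Polynomial.C ((Pi.single i 1 : Fin n → K) k) *
    Polynomial.X) F

/-- The Jacobian of the curve `y² = q(t)`, where `q` is a polynomial of degree at most `4`. The curve
is smooth of genus one if the discriminant of the Jacobian is not zero. -/
noncomputable def jacobian {K : Type} [Field K] (q : Polynomial K) : WeierstrassCurve K :=
  ⟨0, q.coeff 2, 0, q.coeff 1 * q.coeff 3 - 4 * q.coeff 0 * q.coeff 4,
    q.coeff 1 ^ 2 * q.coeff 4 + q.coeff 0 * q.coeff 3 ^ 2 - 4 * q.coeff 0 * q.coeff 2 * q.coeff 4⟩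

/-- `F` is strongly adapted: the degree in each variable is at most `4`, the coefficients are
integral, and at all the points of `w² = F(z)` over `ℚ₂` the coordinates `z_i` are integral, `w` and
the partial derivatives are units, and the curves in the directions of the coordinates are
smooth. -/
def StronglyAdapted {n : ℕ} (F : MvPolynomial (Fin n) ℚ_[2]) : Prop :=
  (∀ i, F.degreeOf i ≤ 4) ∧ (∀ m, ‖F.coeff m‖ ≤ 1) ∧
  ∀ (z : Fin n → ℚ_[2]) (w : ℚ_[2]), w ^ 2 = eval z F → ‖w‖ = 1 ∧
    ∀ i, ‖z i‖ ≤ 1 ∧ ‖eval z (pderiv i F)‖ = 1 ∧ (jacobian (line F z i)).Δ ≠ 0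

/-- The pullback: `z_i² + z_i` is substituted for the variables with `i ∈ T`. -/
noncomputable def pullback {R : Type} [CommRing R] {n : ℕ} (T : Finset (Fin n))
    (g : MvPolynomial (Fin n) R) : MvPolynomial (Fin n) R :=
  bind₁ (fun i => if i ∈ T then X i ^ 2 + X i else X i) g

/-- The points `(v, y)` of the variety `S : y² = ∏_{i ∈ T} (4 v_i + 1) g(v)`. -/
def points {K : Type} [Field K] {n : ℕ} (T : Finset (Fin n)) (g : MvPolynomial (Fin n) K) :
    Set ((Fin n → K) × K) :=
  {P | P.2 ^ 2 = (∏ i ∈ T, (4 * P.1 i + 1)) * eval P.1 g}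

/-- The set `U`: the coordinates `v_i`, `i ∈ T`, are even `2`-adic integers. -/
def evenPart {n : ℕ} (T : Finset (Fin n)) : Set ((Fin n → ℚ_[2]) × ℚ_[2]) :=
  {P | ∀ i ∈ T, ‖P.1 i‖ ≤ 1 / 2}

/-- `S(K) ∩ U`: the points of `S` over `K`, considered over `ℚ₂`, which are in `U`. -/
def rationalEven {K : Type} [Field K] {n : ℕ} (σ : K →+* ℚ_[2]) (T : Finset (Fin n))
    (g : MvPolynomial (Fin n) K) : Set ((Fin n → ℚ_[2]) × ℚ_[2]) :=
  {Q | Q ∈ evenPart T ∧ ∃ P ∈ points T g, Q = (fun i => σ (P.1 i), σ P.2)}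

/-- The polynomials `3 ∏_{i ∈ T} (v_i + 1)² ∏_{i ∉ T} (v_i² + v_i + 1)² + ∑_{i ∈ T} v_i +
∑_{i ∉ T} (v_i² + v_i) + 2 + 4 c`. -/
noncomputable def member {n : ℕ} (T : Finset (Fin n)) (c : MvPolynomial (Fin n) ℤ) :
    MvPolynomial (Fin n) ℤ :=
  3 * ∏ i, (if i ∈ T then (X i + 1) ^ 2 else (X i ^ 2 + X i + 1) ^ 2) +
    ∑ i, (if i ∈ T then X i else X i ^ 2 + X i) + 2 + 4 * c

/-- The indices of the coefficients of the polynomials in two variables of degree at most `2` in the
first variable, and at most `2` (if `1 ∈ T`) or `4` (otherwise) in the second one. -/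
abbrev Index (T : Finset (Fin 2)) : Type := Fin 3 × Fin (if 1 ∈ T then 3 else 5)

/-- The polynomial with the coefficients `c`. -/
noncomputable def poly {T : Finset (Fin 2)} (c : Index T → ℤ) : MvPolynomial (Fin 2) ℤ :=
  ∑ e, C (c e) * (X 0 ^ (e.1 : ℕ) * X 1 ^ (e.2 : ℕ))

/-- The set `S(ℚ) ∩ U` is not empty, and it is dense in `U`. -/
def DenseEven {n : ℕ} (T : Finset (Fin n)) (g : MvPolynomial (Fin n) ℤ) : Prop :=
  (rationalEven (algebraMap ℚ ℚ_[2]) T (map (Int.castRingHom ℚ) g)).Nonempty ∧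
  points T (map (Int.castRingHom ℚ_[2]) g) ∩ evenPart T ⊆
    closure (rationalEven (algebraMap ℚ ℚ_[2]) T (map (Int.castRingHom ℚ) g))

/-! ### comparison with the helper files -/

section aux

variable {n : ℕ}

lemma adapted_iff (F : MvPolynomial (Fin n) ℚ_[2]) (h : StronglyAdapted F) :
    Pool.Agent.Run7.h587.Ad.Adapted F ∧ Unit2 F := by
  refine ⟨(adT_iff _).1 ⟨h.1, h.2.1, fun z w hw => ?_⟩, fun z w hw => ?_⟩
  · obtain ⟨h1, h2⟩ := h.2.2 z w hw
    refine ⟨?_, fun i => ⟨(h2 i).1, ?_, (h2 i).2.2⟩⟩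
    · rintro rfl
      rw [norm_zero] at h1
      exact zero_ne_one h1
    · rw [(h2 i).2.1, norm_mul, n2, h1]
      norm_num
  · obtain ⟨h1, h2⟩ := h.2.2 z w hw
    exact ⟨h1, fun i => (h2 i).2.1⟩

lemma strongly_of {F : MvPolynomial (Fin n) ℚ_[2]} (h : Pool.Agent.Run7.h587.Ad.Adapted F)
    (hu : Unit2 F) : StronglyAdapted F := by
  have h' := (adT_iff _).2 h
  refine ⟨h.1, h.2.1, fun z w hw => ⟨(hu z w hw).1, fun i => ⟨?_, (hu z w hw).2 i, ?_⟩⟩⟩
  · exact ((h.2.2 z w hw).2 i).1
  · exact ((h'.2.2 z w hw).2 i).2.2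

end aux

/-- **K3 surfaces with a quotient structure at the place two.** -/
theorem result :
    (∀ (K : Type) [Field K] [CharZero K] (σ : K →+* ℚ_[2]) (n : ℕ) (T : Finset (Fin n))
      (g : MvPolynomial (Fin n) K), n ≠ 0 → StronglyAdapted (pullback T (map σ g)) →
      -- (1) the closure of `S(K) ∩ U`
      closure (rationalEven σ T g) = {Q | Q ∈ points T (map σ g) ∧ Q ∈ evenPart T ∧
        ∃ P ∈ rationalEven σ T g, ∀ i, ‖Q.1 i - P.1 i‖ ≤ 1 / 8} ∧
      -- Zariski density
      ∀ P ∈ rationalEven σ T g, ∀ V ∈ nhds P, ∀ h : MvPolynomial (Option (Fin n)) ℚ_[2],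
        (∀ Q ∈ rationalEven σ T g, Q ∈ V → eval (fun o => o.elim Q.2 Q.1) h = 0) →
          (X none ^ 2 - rename some ((∏ i ∈ T, (4 * X i + 1)) * map σ g)) ∣ h) ∧
    -- (2) the residue class modulo 4
    (∀ (n : ℕ) (T : Finset (Fin n)) (c : MvPolynomial (Fin n) ℤ),
      (∀ i, c.degreeOf i ≤ if i ∈ T then 2 else 4) →
      StronglyAdapted (pullback T (map (Int.castRingHom ℚ_[2]) (member T c)))) ∧
    -- (3) surfaces with many rational points near all the surfaces of the class
    (∀ T : Finset (Fin 2), 0 ∈ T → ∀ (c₀ : Index T → ℤ) (M : ℕ),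
      ∃ c : Index T → ℤ, (∀ e, (2 : ℤ) ^ M ∣ c e - c₀ e) ∧ DenseEven T (member T (poly c))) ∧
    -- (4) they are Zariski dense
    (∀ T : Finset (Fin 2), 0 ∈ T → ∀ P : MvPolynomial (Index T) ℂ, P ≠ 0 →
      ∃ c : Index T → ℤ, eval (fun e => (c e : ℂ)) P ≠ 0 ∧ DenseEven T (member T (poly c))) := by
  have hm : ∀ (n : ℕ) (T : Finset (Fin n)) (c : MvPolynomial (Fin n) ℤ), member T c = mT T c :=
    fun n T c => rfl
  have h3 : ∀ T : Finset (Fin 2), 0 ∈ T → ∀ (c₀ : Index T → ℤ) (M : ℕ),
      ∃ c : Index T → ℤ, (∀ e, (2 : ℤ) ^ (M + 1) ∣ c e - c₀ e) ∧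
        DenseEven T (member T (poly c)) := by
    intro T h0 c₀ M
    obtain ⟨c, h1, h2, h3⟩ := dense_q h0 c₀ M
    exact ⟨c, h1, h2, fun S hS => h3 S hS.1 hS.2⟩
  refine ⟨fun K _ _ σ n T g hn hf => ?_, fun n T c hc => ?_, fun T h0 c₀ M => ?_,
    fun T h0 P hP => ?_⟩
  · obtain ⟨hf', hu⟩ := adapted_iff _ hf
    refine ⟨na_closure hn hf' hu, fun P hP V hV h hh => ?_⟩
    exact na_zar hn hf' hu hP hV hh
  · rw [hm]
    exact strongly_of (mT_adapted hc).1 (mT_adapted hc).2
  · obtain ⟨c, h1, h2⟩ := h3 T h0 c₀ M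
    exact ⟨c, fun e => (pow_dvd_pow 2 (Nat.le_succ M)).trans (h1 e), h2⟩
  · obtain ⟨c₀, M, h1⟩ := zar_dense hP
    obtain ⟨c, h2, h3⟩ := h3 T h0 c₀ M
    exact ⟨c, h1 c h2, h3⟩

end Pool.Agent.Results.MP_ff4683_nt.QuotientSurfacesAtTwo
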